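import Pool.Agent.V1164.DDes.Main

/-!
# Ratios of the numbers of permutations with one double descent
-/

set_option autoImplicit false

namespace Pool.Agent.Results.MP_a5b9bd_co.SingleRatioLimit

open Filter Pool.Agent.V1164.DDes
open scoped Topology

/-- For all `i, j ≥ 2` the ratio `dd({i}; n) / dd({j}; n)` converges to a positive real number. -/
theorem result (i j : ℕ) (hi : 2 ≤ i) (hj : 2 ≤ j) :
    ∃ L : ℝ, 0 < L ∧ Tendsto (fun n => (dd {i} n : ℝ) / dd {j} n) atTop (𝓝 L) :=
  ratio {i} {j} (dd_single_pos i hi) (dd_single_pos j hj)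

end Pool.Agent.Results.MP_a5b9bd_co.SingleRatioLimit
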